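import Mathlib
import Pool.Agent.H77.ISO.Final

/-!
# Isometric centers of 2-connected plane graphs: a counterexample

There is a 2-connected plane graph `H` (with 30 vertices and 39 edges) in which every vertex is
quasi-eccentric to the boundary of some face, and which is not the isometric center of any
plane graph.
-/

namespace Pool.Agent.Results.MP_c681f7_co.IsometricCenterCounterexample

open Pool.Agent.H77.ISO

theorem result : ∃ (V : Type) (_ : Fintype V) (H : PlaneGraph V), TwoConnected H.graph ∧
    FaceCondition H ∧ ¬ ∃ (W : Type) (_ : Fintype W) (G : PlaneGraph W) (ι : V → W),
      G.graph.Connected ∧ IsIsometricCenter H G ι :=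
  main

end Pool.Agent.Results.MP_c681f7_co.IsometricCenterCounterexample
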